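import Pool.Agent.Helper86.ND.Smooth

set_option autoImplicit false

open MeasureTheory Set Filter Topology ProbabilityTheory
open scoped ENNReal NNReal

namespace Pool.Agent.Helper86.ND.HEAT

open Pool.Agent.Helper28.ND Pool.Agent.Helper86.ND

variable {d : ℕ} {f : ℝ → (Fin d → ℝ) → ℝ}

/-- The derivative in `r` of the integrand. -/
noncomputable def D (f : ℝ → (Fin d → ℝ) → ℝ) (t : ℝ) (x : Fin d → ℝ) (r : ℝ) (z : Fin d → ℝ) : ℝ :=
  - dt f (t - r) (x - Real.sqrt (2 * r) • z)
    - ∑ i, (1 / Real.sqrt (2 * r)) * (z i * pd i (f (t - r)) (x - Real.sqrt (2 * r) • z))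

theorem lin_eq (h : CS f) (t : ℝ) (x : Fin d → ℝ) (a : ℝ) (y : Fin d → ℝ) :
    fderiv ℝ (U f) (t, x) (a, y) = a * dt f t x + ∑ i, y i * pd i (f t) x := by
  have h1 : (a, y) = a • ((1 : ℝ), (0 : Fin d → ℝ)) + ∑ i, y i • ((0 : ℝ), (Pi.single i 1 : Fin d → ℝ)) := by
    ext j
    · simp [Prod.fst_sum]
    · simp [Prod.snd_sum, Finset.sum_apply, Pi.single_apply]
  rw [h1, map_add, map_smul, map_sum, dt_eq h]
  congr 1
  apply Finset.sum_congr rfl
  intro i _
  rw [map_smul, pd_eq h]
  rfl

theorem deriv_integrand (h : CS f) (t : ℝ) (x : Fin d → ℝ) (r : ℝ) (hr : 0 < r) (z : Fin d → ℝ) :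
    HasDerivAt (fun r => f (t - r) (x - Real.sqrt (2 * r) • z)) (D f t x r z) r := by
  have h1 : HasFDerivAt (U f) (fderiv ℝ (U f) (t - r, x - Real.sqrt (2 * r) • z))
    (t - r, x - Real.sqrt (2 * r) • z) := (h.diff _).hasFDerivAt
  have h2 : HasDerivAt (fun r : ℝ => Real.sqrt (2 * r)) (1 / Real.sqrt (2 * r)) r := by
    have h3 := (Real.hasDerivAt_sqrt (x := 2 * r) (by positivity)).comp r
      ((hasDerivAt_id r).const_mul 2)
    refine h3.congr_deriv ?_
    field_simp
  have h4 : HasDerivAt (fun r : ℝ => (t - r, x - Real.sqrt (2 * r) • z))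
      (-1, -((1 / Real.sqrt (2 * r)) • z)) r := by
    apply HasDerivAt.prodMk
    · simpa using (hasDerivAt_id r).const_sub t
    · simpa using (h2.smul_const z).const_sub x
  have h5 := h1.comp_hasDerivAt r h4
  rw [lin_eq h] at h5
  refine HasDerivAt.congr_deriv h5 ?_
  unfold D
  simp only [Pi.neg_apply, Pi.smul_apply, smul_eq_mul]
  have h6 : ∀ a b : ℝ, a - b = a + -b := fun a b => sub_eq_add_neg a b
  rw [h6 (-dt f (t - r) (x - Real.sqrt (2 * r) • z)), ← Finset.sum_neg_distrib]
  congr 1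
  · ring
  · apply Finset.sum_congr rfl
    intro i _
    ring

theorem flow_deriv (hS : S_STEIN) (h : CS f) (t : ℝ) (x : Fin d → ℝ) (r : ℝ) (hr : 0 < r) :
    HasDerivAt (fun r => ∫ z, f (t - r) (x - Real.sqrt (2 * r) • z) ∂(gam d))
      (∫ z, (lap (f (t - r)) (x - Real.sqrt (2 * r) • z)
      - dt f (t - r) (x - Real.sqrt (2 * r) • z)) ∂(gam d)) r := by
  obtain ⟨B1, hB10, hB1⟩ := h.dt.bdd
  have hex : ∀ i : Fin d, ∃ B : ℝ, 0 ≤ B ∧ ∀ t x, |pd i (f t) x| ≤ B := fun i => (h.pd i).bdd
  choose B2 hB20 hB2 using hex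
  have hmain := hasDerivAt_integral_of_dominated_loc_of_deriv_le (μ := gam d)
    (F := fun r z => f (t - r) (x - Real.sqrt (2 * r) • z)) (F' := fun r z => D f t x r z)
    (x₀ := r) (s := Ioi (r / 2)) (Ioi_mem_nhds (by linarith))
    (bound := fun z => B1 + ∑ i, (1 / Real.sqrt r) * (|z i| * B2 i))
    (Eventually.of_forall fun r => (slice_cont h (t - r) x (Real.sqrt (2 * r))).aestronglyMeasurable)
    (slice_int h (t - r) x (Real.sqrt (2 * r))) ?_ ?_ ?_ ?_
  · refine hmain.2.congr_deriv ?_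
    unfold D
    rw [integral_sub, integral_sub, integral_neg, integral_finsetSum]
    · have hL : ∫ z, lap (f (t - r)) (x - Real.sqrt (2 * r) • z) ∂(gam d)
          = ∑ i, ∫ z, pd i (pd i (f (t - r))) (x - Real.sqrt (2 * r) • z) ∂(gam d) := by
        unfold lap
        rw [integral_finsetSum]
        intro i _
        exact slice_int ((h.pd i).pd i) _ _ _
      rw [hL, sub_eq_add_neg, sub_eq_add_neg, add_comm, ← Finset.sum_neg_distrib]
      congr 1
      apply Finset.sum_congr rfl
      intro i _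
      rw [integral_const_mul, stein hS (h.pd i)]
      have : Real.sqrt (2 * r) ≠ 0 := (Real.sqrt_pos.mpr (by linarith)).ne'
      field_simp
    · intro i _
      exact (slice_int' (h.pd i) _ _ _ i).const_mul _
    · exact slice_int h.lap _ _ _
    · exact slice_int h.dt _ _ _
    · exact (slice_int h.dt _ _ _).neg
    · refine integrable_finsetSum _ fun i _ => ?_
      exact (slice_int' (h.pd i) _ _ _ i).const_mul _
  · refine Continuous.aestronglyMeasurable ?_
    unfold D
    refine (slice_cont h.dt _ _ _).neg.sub (continuous_finsetSum _ fun i _ => ?_)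
    exact continuous_const.mul ((continuous_apply i).mul (slice_cont (h.pd i) _ _ _))
  · refine Eventually.of_forall fun z r' hr' => ?_
    have hr'2 : r / 2 < r' := hr'
    have hr'0 : 0 < r' := by linarith
    unfold D
    rw [Real.norm_eq_abs]
    refine (abs_sub _ _).trans ?_
    rw [abs_neg]
    refine add_le_add (hB1 _ _) ?_
    refine (Finset.abs_sum_le_sum_abs _ _).trans (Finset.sum_le_sum fun i _ => ?_)
    rw [abs_mul, abs_mul]
    have h1 : |1 / Real.sqrt (2 * r')| ≤ 1 / Real.sqrt r := by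
      rw [abs_of_nonneg (by positivity)]
      apply one_div_le_one_div_of_le (Real.sqrt_pos.mpr hr)
      exact Real.sqrt_le_sqrt (by linarith)
    gcongr
    exact hB2 i _ _
  · refine (integrable_const _).add (integrable_finsetSum _ fun i _ => ?_)
    exact ((coord_int d i).abs.mul_const _).const_mul _
  · refine Eventually.of_forall fun z r' hr' => ?_
    have hr'2 : r / 2 < r' := hr'
    exact deriv_integrand h t x r' (by linarith) z

/-- Part HEAT. -/
theorem main (hS : S_STEIN) : S_HEAT := by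
  intro d f hf R hR t htR x
  have h : CS f := ⟨hf.smooth, hf.supp⟩
  have hc : Continuous (fun r : ℝ => ∫ z, (lap (f (t - r)) (x - Real.sqrt (2 * r) • z)
      - dt f (t - r) (x - Real.sqrt (2 * r) • z)) ∂(gam d)) := flow_cont (h.lap.sub h.dt) t x
  have h1 := intervalIntegral.integral_eq_sub_of_hasDerivAt_of_le hR.le
    (flow_cont h t x).continuousOn (fun r hr => flow_deriv hS h t x r hr.1)
    (hc.intervalIntegrable 0 R)
  rw [← integral_Ioc_eq_integral_Ioo, ← intervalIntegral.integral_of_le hR.le, h1]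
  have h2 : ∀ z : Fin d → ℝ, f (t - R) (x - Real.sqrt (2 * R) • z) = 0 :=
    fun z => hf.pos _ (by linarith) _
  have h3 : ∫ z, f (t - R) (x - Real.sqrt (2 * R) • z) ∂(gam d) = 0 := by
    simp only [h2, integral_zero]
  rw [h3]
  simp

end Pool.Agent.Helper86.ND.HEAT
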