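import Pool.Agent.Helper86.ND.Base

set_option autoImplicit false

open MeasureTheory Set Filter Topology ProbabilityTheory
open scoped ENNReal NNReal

namespace Pool.Agent.Helper86.ND.KB

open Pool.Agent.Helper28.ND Pool.Agent.Helper86.ND

variable {d : ℕ}

theorem meas_kk (i : Fin d) : Measurable (kk i) := by
  unfold kk
  fun_prop

theorem meas_Pot (S : ℝ) (k : E d → ℝ) (hk : Measurable k) (F : ℝ → (Fin d → ℝ) → ℝ)
    (hF : BMP F) : Measurable (Pot S k F) := by
  have h : Measurable (fun q : E d × E d => k q.2 * U F (q.1 + mm q.2)) :=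
    (hk.comp measurable_snd).mul (hF.meas.comp (measurable_fst.add ((meas_mm d).comp measurable_snd)))
  have := (h.stronglyMeasurable).integral_prod_right' (ν := muS d S)
  exact this.measurable

theorem per_Pot (S : ℝ) (k : E d → ℝ) (F : ℝ → (Fin d → ℝ) → ℝ)
    (hF : BMP F) (t : ℝ) (x : Fin d → ℝ) (m : Fin d → ℤ) :
    Pot S k F (t, fun i => x i + (m i : ℝ)) = Pot S k F (t, x) := by
  unfold Pot
  congr 1
  funext p
  congr 1
  unfold U
  simp only [Prod.fst_add, Prod.snd_add]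
  have h := hF.per (t + (mm p).1) (x + (mm p).2) m
  rw [← h]
  congr 1
  funext i
  simp only [Pi.add_apply]
  ring

theorem bdd_Pot (S : ℝ) (k : E d → ℝ) (hk : Integrable k (muS d S)) (F : ℝ → (Fin d → ℝ) → ℝ)
    (hF : BMP F) : ∃ B : ℝ, ∀ w, |Pot S k F w| ≤ B := by
  obtain ⟨B, hB⟩ := hF.bdd
  refine ⟨∫ p, |k p| * B ∂(muS d S), fun w => ?_⟩
  unfold Pot
  rw [← Real.norm_eq_abs]
  refine norm_integral_le_of_norm_le (hk.abs.mul_const B) (Eventually.of_forall fun p => ?_)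
  rw [norm_mul]
  exact mul_le_mul_of_nonneg_left (hB _ _) (abs_nonneg _)

theorem bmp_Phi (S : ℝ) (F : ℝ → (Fin d → ℝ) → ℝ) (hF : BMP F) : BMP (Phi S F) := by
  refine ⟨?_, ?_, ?_⟩
  · have : U (Phi S F) = Pot S (fun _ => 1) F := funext fun w => Phi_eq S F hF w
    rw [this]
    exact meas_Pot S _ measurable_const F hF
  · intro t x m
    have h1 := Phi_eq S F hF (t, fun i => x i + (m i : ℝ))
    have h2 := Phi_eq S F hF (t, x)
    rw [per_Pot S _ F hF, ← h2] at h1
    exact h1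
  · obtain ⟨B, hB⟩ := bdd_Pot S (fun _ => 1) (one_int d S) F hF
    refine ⟨B, fun t x => ?_⟩
    have h2 := Phi_eq S F hF (t, x)
    have h3 := hB (t, x)
    rw [← h2] at h3
    exact h3

theorem bmp_Vel (S : ℝ) (F : ℝ → (Fin d → ℝ) → ℝ) (hF : BMP F) (i : Fin d) : BMP (Vel S F i) := by
  refine ⟨?_, ?_, ?_⟩
  · have : U (Vel S F i) = Pot S (kk i) F := funext fun w => Vel_eq S F hF i w
    rw [this]
    exact meas_Pot S _ (meas_kk i) F hF
  · intro t x m
    have h1 := Vel_eq S F hF i (t, fun i => x i + (m i : ℝ))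
    have h2 := Vel_eq S F hF i (t, x)
    rw [per_Pot S _ F hF, ← h2] at h1
    exact h1
  · obtain ⟨B, hB⟩ := bdd_Pot S (kk i) (kk_int d S i) F hF
    refine ⟨B, fun t x => ?_⟩
    have h2 := Vel_eq S F hF i (t, x)
    have h3 := hB (t, x)
    rw [← h2] at h3
    exact h3

/-- The decay bound for the gradient. -/
theorem vel_bound (S : ℝ) (F : ℝ → (Fin d → ℝ) → ℝ) (hF : BMP F) (B t1 : ℝ)
    (hB : ∀ᵐ z : ℝ × (Fin d → ℝ), |U F z| ≤ B) (h1 : ∀ t, t1 ≤ t → ∀ x, F t x = 0)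
    (i : Fin d) (t : ℝ) (ht : t ≤ t1) (x : Fin d → ℝ) :
    |Vel S F i t x| ≤ 2 * B * Real.sqrt (t1 - t) := by
  have hB0 : 0 ≤ B := by
    obtain ⟨z, hz⟩ := hB.exists
    exact (abs_nonneg _).trans hz
  have h2 : Vel S F i t x = Pot S (kk i) F (t, x) := Vel_eq S F hF i (t, x)
  rw [h2]
  unfold Pot
  set ψ : ℝ → ℝ := (Ioo 0 (t1 - t)).indicator (fun r => r ^ (-(1 / 2) : ℝ)) with hψ
  have hψi : Integrable ψ (volume.restrict (Ioo 0 S)) := (half_int S).indicator measurableSet_Ioo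
  have hψ0 : ∀ r, 0 ≤ ψ r := by
    intro r
    apply indicator_nonneg
    intro r hr
    exact Real.rpow_nonneg hr.1.le _
  have hint : Integrable (fun p : E d => ψ p.1 * (|p.2 i| * B)) (muS d S) :=
    hψi.mul_prod ((coord_int d i).abs.mul_const B)
  have h3 : |∫ p, kk i p * U F ((t, x) + mm p) ∂(muS d S)|
      ≤ ∫ p, ψ p.1 * (|p.2 i| * B) ∂(muS d S) := by
    rw [← Real.norm_eq_abs]
    refine norm_integral_le_of_norm_le hint ?_
    have h4 : ∀ᵐ p ∂(muS d S), |U F ((t, x) + mm p)| ≤ B := (qmp d S (t, x)).ae hB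
    have h5 : ∀ᵐ p ∂(muS d S), p.1 ∈ Ioo 0 S := by
      unfold muS
      exact Measure.quasiMeasurePreserving_fst.ae (ae_restrict_mem measurableSet_Ioo)
    filter_upwards [h4, h5] with p hp1 hp2
    rw [norm_mul]
    rcases lt_or_ge p.1 (t1 - t) with h | h
    · have hmem : p.1 ∈ Ioo 0 (t1 - t) := ⟨hp2.1, h⟩
      have h6 : ψ p.1 = p.1 ^ (-(1 / 2) : ℝ) := indicator_of_mem hmem _
      rw [h6]
      have h7 : ‖kk i p‖ ≤ p.1 ^ (-(1 / 2) : ℝ) * |p.2 i| := by
        unfold kk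
        rw [div_eq_mul_one_div, norm_mul, mul_comm]
        exact mul_le_mul_of_nonneg_right (isq_le hp2.1) (abs_nonneg _)
      calc ‖kk i p‖ * ‖U F ((t, x) + mm p)‖ ≤ (p.1 ^ (-(1 / 2) : ℝ) * |p.2 i|) * B :=
            mul_le_mul h7 hp1 (norm_nonneg _) (by
              have := Real.rpow_nonneg hp2.1.le (-(1 / 2) : ℝ)
              positivity)
        _ = _ := by ring
    · have h8 : U F ((t, x) + mm p) = 0 := h1 (t + p.1) (by linarith) _
      rw [h8, norm_zero, mul_zero]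
      have := hψ0 p.1
      positivity
  refine h3.trans ?_
  have h9 : ∫ p, ψ p.1 * (|p.2 i| * B) ∂(muS d S)
      = (∫ r in Ioo 0 S, ψ r) * ∫ z, |z i| * B ∂(gam d) := by
    unfold muS
    exact integral_prod_mul ψ (fun z : Fin d → ℝ => |z i| * B)
  rw [h9, integral_mul_const]
  have h10 : ∫ r in Ioo 0 S, ψ r ≤ 2 * Real.sqrt (t1 - t) := by
    rw [hψ, setIntegral_indicator measurableSet_Ioo, ← half_eq _ (by linarith)]
    refine setIntegral_mono_set (half_int _) ?_ (Eventually.of_forall fun r hr => hr.2)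
    filter_upwards [ae_restrict_mem measurableSet_Ioo] with r hr
    exact Real.rpow_nonneg hr.1.le _
  have h11 := coord_abs d i
  have h12 : 0 ≤ ∫ z, |z i| ∂(gam d) := integral_nonneg fun z => abs_nonneg _
  have h13 : 0 ≤ ∫ r in Ioo 0 S, ψ r := integral_nonneg hψ0
  calc (∫ r in Ioo 0 S, ψ r) * ((∫ z, |z i| ∂(gam d)) * B)
      ≤ (2 * Real.sqrt (t1 - t)) * (1 * B) := by
        gcongr
    _ = _ := by ring

/-- Part KB. -/
theorem main : S_KB := by
  intro d S F hS hF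
  have hb : BMP F := ⟨hF.meas, hF.per, hF.bdd⟩
  refine ⟨bmp_Phi S F hb, fun i => bmp_Vel S F hb i, ?_, ?_⟩
  · intro t ht x
    have h0 : ∀ r ∈ Ioo 0 S, ∀ y, F (t + r) y = 0 := fun r hr y =>
      hF.supp (t + r) (Or.inr (by linarith [hr.1])) y
    refine ⟨?_, fun i => ?_⟩
    · unfold Phi
      rw [setIntegral_congr_fun (g := fun _ => (0 : ℝ)) measurableSet_Ioo]
      · simp
      · intro r hr
        simp [h0 r hr]
    · unfold Vel
      rw [setIntegral_congr_fun (g := fun _ => (0 : ℝ)) measurableSet_Ioo]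
      · simp
      · intro r hr
        simp [h0 r hr]
  · intro B t1 hB h1 i t ht x
    exact vel_bound S F hb B t1 hB h1 i t ht x

end Pool.Agent.Helper86.ND.KB
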