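import Pool.Agent.Helper86.ND.Smooth
import Pool.Agent.Helper86.ND.HEAT

set_option autoImplicit false

open MeasureTheory Set Filter Topology ProbabilityTheory
open scoped ENNReal NNReal

namespace Pool.Agent.Helper86.ND.WEQ

open Pool.Agent.Helper28.ND Pool.Agent.Helper86.ND

variable {d : ℕ}

instance instInv (d : ℕ) : (volume : Measure (ℝ × (Fin d → ℝ))).IsAddLeftInvariant := by
  rw [Measure.volume_eq_prod]
  infer_instance

instance instInvR (d : ℕ) : (volume : Measure (ℝ × (Fin d → ℝ))).IsAddRightInvariant :=
  inferInstance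

/-- Duality: Fubini and translation. -/
theorem dual (S : ℝ) (k : E d → ℝ) (hk : Integrable k (muS d S)) (hkm : Measurable k)
    (F : ℝ → (Fin d → ℝ) → ℝ) (hF : BMP F) (g : E d → ℝ) (hg : Integrable g volume)
    (hgm : Measurable g) :
    ∫ w, Pot S k F w * g w = ∫ w, U F w * ∫ p, k p * g (w - mm p) ∂(muS d S) := by
  obtain ⟨B, hB⟩ := hF.bdd
  have hUm : Measurable (fun q : E d × E d => U F (q.1 + mm q.2)) :=
    hF.meas.comp (measurable_fst.add ((meas_mm d).comp measurable_snd))
  have hI1 : Integrable (fun q : E d × E d => (k q.2 * U F (q.1 + mm q.2)) * g q.1)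
      ((volume : Measure (E d)).prod (muS d S)) := by
    have h1 : Integrable (fun q : E d × E d => g q.1 * k q.2) ((volume : Measure (E d)).prod (muS d S)) :=
      hg.mul_prod hk
    have h2 := h1.mul_bdd (c := B) hUm.aestronglyMeasurable (Eventually.of_forall fun q => hB _ _)
    refine h2.congr (Eventually.of_forall fun q => ?_)
    ring
  have hI2 : Integrable (fun q : E d × E d => (k q.2 * U F q.1) * g (q.1 - mm q.2))
      ((volume : Measure (E d)).prod (muS d S)) := by
    have hm : Measurable (fun q : E d × E d => (k q.2 * U F q.1) * g (q.1 - mm q.2)) :=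
      ((hkm.comp measurable_snd).mul (hF.meas.comp measurable_fst)).mul
        (hgm.comp (measurable_fst.sub ((meas_mm d).comp measurable_snd)))
    have h0 : Integrable (fun q : E d × E d => k q.2 * g (q.1 - mm q.2))
        ((volume : Measure (E d)).prod (muS d S)) := by
      have hm0 : Measurable (fun q : E d × E d => k q.2 * g (q.1 - mm q.2)) :=
        (hkm.comp measurable_snd).mul
          (hgm.comp (measurable_fst.sub ((meas_mm d).comp measurable_snd)))
      rw [integrable_prod_iff' hm0.aestronglyMeasurable]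
      refine ⟨Eventually.of_forall fun p => (hg.comp_sub_right (mm p)).const_mul (k p), ?_⟩
      have h3 : (fun p : E d => ∫ w : E d, ‖k p * g (w - mm p)‖)
          = fun p : E d => |k p| * ∫ w : E d, ‖g w‖ := by
        funext p
        rw [← integral_sub_right_eq_self (fun w : E d => ‖g w‖) (mm p), ← integral_const_mul]
        congr 1
        funext w
        rw [norm_mul, Real.norm_eq_abs]
      rw [h3]
      exact hk.abs.mul_const _
    have h2 := h0.mul_bdd (c := B) (g := fun q : E d × E d => U F q.1)
      (hF.meas.comp measurable_fst).aestronglyMeasurable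
      (Eventually.of_forall fun q => hB _ _)
    refine h2.congr (Eventually.of_forall fun q => ?_)
    ring
  calc ∫ w, Pot S k F w * g w
      = ∫ w, ∫ p, (k p * U F (w + mm p)) * g w ∂(muS d S) := by
        congr 1
        funext w
        unfold Pot
        rw [integral_mul_const]
    _ = ∫ p, ∫ w, (k p * U F (w + mm p)) * g w ∂(volume : Measure (E d)) ∂(muS d S) :=
        integral_integral_swap hI1
    _ = ∫ p, ∫ w, (k p * U F w) * g (w - mm p) ∂(volume : Measure (E d)) ∂(muS d S) := by
        congr 1
        funext p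
        rw [← integral_add_right_eq_self (fun w : E d => (k p * U F w) * g (w - mm p)) (mm p)]
        congr 1
        funext w
        rw [add_sub_cancel_right]
    _ = ∫ w, ∫ p, (k p * U F w) * g (w - mm p) ∂(muS d S) :=
        (integral_integral_swap hI2).symm
    _ = ∫ w, U F w * ∫ p, k p * g (w - mm p) ∂(muS d S) := by
        congr 1
        funext w
        rw [← integral_const_mul]
        congr 1
        funext p
        ring

theorem g_int {f : ℝ → (Fin d → ℝ) → ℝ} (h : CS f) (S : ℝ) (k : E d → ℝ)
    (hk : Integrable k (muS d S)) (w : E d) :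
    Integrable (fun p => k p * U f (w - mm p)) (muS d S) := by
  obtain ⟨B, hB0, hB⟩ := h.bdd
  refine hk.mul_bdd (c := B) ?_ ?_
  · exact (h.meas.comp (measurable_const.sub (meas_mm d))).aestronglyMeasurable
  · exact Eventually.of_forall fun p => hB _ _

theorem iter {f : ℝ → (Fin d → ℝ) → ℝ} (h : CS f) (S : ℝ) (k : E d → ℝ)
    (hk : Integrable k (muS d S)) (w : E d) :
    ∫ p, k p * U f (w - mm p) ∂(muS d S)
      = ∫ r in Ioo 0 S, ∫ z, k (r, z) * f (w.1 - r) (w.2 - Real.sqrt (2 * r) • z) ∂(gam d) := by
  have h1 := g_int h S k hk w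
  unfold muS
  unfold muS at h1
  rw [integral_prod _ h1]
  rfl

/-- Part WEQ. -/
theorem main (hH : S_HEAT) (hS : S_STEIN) : S_WEQ := by
  intro d S F hS0 hF f hf
  have hb : BMP F := ⟨hF.meas, hF.per, hF.bdd⟩
  have h : CS f := ⟨hf.smooth, hf.supp⟩
  have hL : CS (fun t x => lap (f t) x - dt f t x) := h.lap.sub h.dt
  refine ⟨?_, fun i => ?_⟩
  · have h1 : (fun w => U (Phi S F) w * (lap (f w.1) w.2 - dt f w.1 w.2))
        = fun w => Pot S (fun _ => 1) F w * U (fun t x => lap (f t) x - dt f t x) w := by
      funext w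
      rw [Phi_eq S F hb w]
      rfl
    rw [h1, dual S _ (one_int d S) measurable_const F hb _ hL.integrable hL.meas, ← integral_neg]
    congr 1
    funext w
    rw [iter hL S _ (one_int d S)]
    simp only [one_mul]
    rcases lt_or_ge w.1 S with hw | hw
    · rw [hH d f hf S hS0 w.1 hw w.2]
      unfold U
      ring
    · have : U F w = 0 := hF.supp _ (Or.inr hw) _
      rw [this]
      ring
  · have h1 : (fun w => U (Phi S F) w * pd i (f w.1) w.2)
        = fun w => Pot S (fun _ => 1) F w * U (fun t x => pd i (f t) x) w := by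
      funext w
      rw [Phi_eq S F hb w]
      rfl
    have h2 : (fun w => U (Vel S F i) w * U f w) = fun w => Pot S (kk i) F w * U f w := by
      funext w
      rw [Vel_eq S F hb i w]
    have hkm : Measurable (kk i : E d → ℝ) := by unfold kk; fun_prop
    rw [h1, h2, dual S _ (one_int d S) measurable_const F hb _ (h.pd i).integrable (h.pd i).meas,
      dual S _ (kk_int d S i) hkm F hb _ h.integrable h.meas, ← integral_neg]
    congr 1
    funext w
    rw [iter (h.pd i) S _ (one_int d S), iter h S _ (kk_int d S i), ← mul_neg, ← integral_neg]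
    congr 1
    refine setIntegral_congr_fun measurableSet_Ioo fun r hr => ?_
    have hr0 : 0 < Real.sqrt (2 * r) := Real.sqrt_pos.mpr (by linarith [hr.1])
    have h3 := stein hS h (w.1 - r) w.2 (Real.sqrt (2 * r)) i
    simp only [one_mul]
    have h4 : ∫ z, kk i (r, z) * f (w.1 - r) (w.2 - Real.sqrt (2 * r) • z) ∂(gam d)
        = (1 / Real.sqrt (2 * r)) * ∫ z, z i * f (w.1 - r) (w.2 - Real.sqrt (2 * r) • z) ∂(gam d) := by
      rw [← integral_const_mul]
      congr 1
      funext z
      simp only [kk]
      ring
    have h5 : ∫ z, pd i (f (w.1 - r)) (w.2 - Real.sqrt (2 * r) • z) ∂(gam d)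
        = -((1 / Real.sqrt (2 * r)) * (-Real.sqrt (2 * r) *
          ∫ z, pd i (f (w.1 - r)) (w.2 - Real.sqrt (2 * r) • z) ∂(gam d))) := by
      have h6 : (1 / Real.sqrt (2 * r)) * Real.sqrt (2 * r) = 1 := one_div_mul_cancel hr0.ne'
      rw [← mul_assoc, mul_neg, h6]
      ring
    rw [h4, h3]
    exact h5

end Pool.Agent.Helper86.ND.WEQ
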