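import Pool.Agent.Helper28.ND.Spec

set_option autoImplicit false

open MeasureTheory Set Filter Topology ProbabilityTheory
open scoped ENNReal NNReal

namespace Pool.Agent.Helper86.ND

open Pool.Agent.Helper28.ND

noncomputable section

instance gam_prob (d : ℕ) : IsProbabilityMeasure (gam d) := by unfold gam; infer_instance

theorem pi_ac (μ ν : Measure ℝ) [SigmaFinite μ] [SigmaFinite ν] (h : μ ≪ ν) (n : ℕ) :
    Measure.pi (fun _ : Fin n => μ) ≪ Measure.pi (fun _ : Fin n => ν) := by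
  induction n with
  | zero =>
    rw [Measure.pi_of_empty (fun _ : Fin 0 => μ), Measure.pi_of_empty (fun _ : Fin 0 => ν)]
  | succ n ih =>
    have h1 := ((measurePreserving_piFinSuccAbove (fun _ : Fin (n + 1) => μ) 0).symm _).map_eq
    have h2 := ((measurePreserving_piFinSuccAbove (fun _ : Fin (n + 1) => ν) 0).symm _).map_eq
    rw [← h1, ← h2]
    exact (Measure.AbsolutelyContinuous.prod h ih).map (MeasurableEquiv.measurable _)

theorem gam_ac (d : ℕ) : gam d ≪ (volume : Measure (Fin d → ℝ)) := by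
  unfold gam
  rw [volume_pi]
  exact pi_ac _ _ (gaussianReal_absolutelyContinuous 0 one_ne_zero) _

theorem gid_int : Integrable (fun x : ℝ => x) (gaussianReal 0 1) :=
  (memLp_id_gaussianReal 1).integrable (by norm_num)

theorem gsq_int : Integrable (fun x : ℝ => x ^ 2) (gaussianReal 0 1) := by
  have := (memLp_id_gaussianReal (μ := 0) (v := 1) 2).integrable_sq
  simpa using this

theorem gsq : ∫ x, x ^ 2 ∂(gaussianReal 0 1) = 1 := by
  have h1 : Var[id; gaussianReal 0 1] = (1 : ℝ) := by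
    simp
  rw [variance_of_integral_eq_zero (by fun_prop) (by simp)] at h1
  simpa using h1

theorem gabs : ∫ x, |x| ∂(gaussianReal 0 1) ≤ 1 := by
  have h : ∫ x, |x| ∂(gaussianReal 0 1) ≤ ∫ x, (1 / 2 + x ^ 2 / 2) ∂(gaussianReal 0 1) := by
    apply integral_mono gid_int.abs ((integrable_const _).add (gsq_int.div_const 2))
    intro x
    simp only [Pi.add_apply]
    nlinarith [sq_nonneg (|x| - 1), sq_abs x]
  rw [integral_add (integrable_const _) (gsq_int.div_const 2), integral_div 2 (fun x : ℝ => x ^ 2),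
    gsq, integral_const] at h
  simp at h
  linarith

theorem coord_int (d : ℕ) (i : Fin d) : Integrable (fun z : Fin d → ℝ => z i) (gam d) := by
  unfold gam
  exact integrable_comp_eval (μ := fun _ : Fin d => gaussianReal 0 1) (i := i) gid_int

theorem coord_abs (d : ℕ) (i : Fin d) : ∫ z, |z i| ∂(gam d) ≤ 1 := by
  have h := integral_comp_eval (μ := fun _ : Fin d => gaussianReal 0 1) (i := i)
    (f := fun x : ℝ => |x|) (by fun_prop)
  unfold gam
  rw [h]
  exact gabs

/-- The space-time. -/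
abbrev E (d : ℕ) := ℝ × (Fin d → ℝ)

/-- The shift. -/
def mm {d : ℕ} (p : E d) : E d := (p.1, Real.sqrt (2 * p.1) • p.2)

theorem cont_mm (d : ℕ) : Continuous (mm : E d → E d) := by
  unfold mm; fun_prop

theorem meas_mm (d : ℕ) : Measurable (mm : E d → E d) := (cont_mm d).measurable

/-- The parameter measure. -/
def muS (d : ℕ) (S : ℝ) : Measure (E d) := (volume.restrict (Ioo (0 : ℝ) S)).prod (gam d)

instance (d : ℕ) (S : ℝ) : IsFiniteMeasure (muS d S) := by
  unfold muS
  have : IsFiniteMeasure (volume.restrict (Ioo (0 : ℝ) S)) := ⟨by simp⟩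
  infer_instance

instance (d : ℕ) (S : ℝ) : SFinite (muS d S) := inferInstance

theorem qmp (d : ℕ) (S : ℝ) (w : E d) :
    Measure.QuasiMeasurePreserving (fun p : E d => w + mm p) (muS d S) volume := by
  have hm : Measurable (fun p : E d => w + mm p) := measurable_const.add (meas_mm d)
  refine ⟨hm, Measure.AbsolutelyContinuous.mk fun s hs h2s => ?_⟩
  rw [Measure.map_apply hm hs]
  unfold muS
  rw [Measure.measure_prod_null (hm hs)]
  rw [Measure.volume_eq_prod, Measure.measure_prod_null hs] at h2s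
  have h3 : ∀ᵐ r : ℝ, volume (Prod.mk (w.1 + r) ⁻¹' s) = 0 :=
    (measurePreserving_add_left (volume : Measure ℝ) w.1).quasiMeasurePreserving.ae h2s
  have h4 : ∀ᵐ r ∂(volume.restrict (Ioo (0 : ℝ) S)), r ∈ Ioo (0 : ℝ) S :=
    ae_restrict_mem measurableSet_Ioo
  filter_upwards [ae_restrict_of_ae h3, h4] with r hr hr0
  simp only [Pi.zero_apply]
  apply gam_ac d
  have hc : Real.sqrt (2 * r) ≠ 0 := by
    have : 0 < Real.sqrt (2 * r) := Real.sqrt_pos.mpr (by linarith [hr0.1])
    exact this.ne'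
  have h5 : Prod.mk r ⁻¹' ((fun p : E d => w + mm p) ⁻¹' s)
      = (Real.sqrt (2 * r) • ·) ⁻¹' ((w.2 + ·) ⁻¹' (Prod.mk (w.1 + r) ⁻¹' s)) := by
    ext z
    simp only [mem_preimage, mm]
    rfl
  rw [h5, Measure.addHaar_preimage_smul _ hc, measure_preimage_add, hr, mul_zero]

theorem rpow_eq {r : ℝ} (hr : 0 < r) : r ^ (-(1 / 2) : ℝ) = 1 / Real.sqrt r := by
  rw [Real.rpow_neg hr.le, ← Real.sqrt_eq_rpow, one_div]

theorem half_int (S : ℝ) : IntegrableOn (fun r : ℝ => r ^ (-(1 / 2) : ℝ)) (Ioo 0 S) := by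
  rcases le_or_gt S 0 with h | h
  · rw [Ioo_eq_empty (by simpa using h)]; exact integrableOn_empty
  have h1 : IntervalIntegrable (fun r : ℝ => r ^ (-(1 / 2) : ℝ)) volume 0 S :=
    intervalIntegral.intervalIntegrable_rpow' (by norm_num)
  rw [intervalIntegrable_iff_integrableOn_Ioo_of_le h.le] at h1
  exact h1

theorem half_eq (S : ℝ) (hS : 0 ≤ S) :
    ∫ r in Ioo 0 S, r ^ (-(1 / 2) : ℝ) = 2 * Real.sqrt S := by
  rw [← integral_Ioc_eq_integral_Ioo, ← intervalIntegral.integral_of_le hS,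
    integral_rpow (Or.inl (by norm_num))]
  rw [show (-(1 / 2) + 1 : ℝ) = 1 / 2 by norm_num, ← Real.sqrt_eq_rpow,
    Real.zero_rpow (by norm_num)]
  ring

theorem isq_le {r : ℝ} (hr : 0 < r) : |1 / Real.sqrt (2 * r)| ≤ r ^ (-(1 / 2) : ℝ) := by
  rw [rpow_eq hr, abs_of_nonneg (by positivity)]
  apply one_div_le_one_div_of_le (Real.sqrt_pos.mpr hr)
  exact Real.sqrt_le_sqrt (by linarith)

theorem isq_int (S : ℝ) : IntegrableOn (fun r : ℝ => 1 / Real.sqrt (2 * r)) (Ioo 0 S) := by
  refine Integrable.mono' (half_int S) (by measurability) ?_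
  filter_upwards [ae_restrict_mem measurableSet_Ioo] with r hr
  exact isq_le hr.1

/-- The kernel of `Vel`. -/
def kk {d : ℕ} (i : Fin d) (p : E d) : ℝ := p.2 i / Real.sqrt (2 * p.1)

theorem kk_int (d : ℕ) (S : ℝ) (i : Fin d) : Integrable (kk i) (muS d S) := by
  have h := (isq_int S).mul_prod (coord_int d i)
  unfold muS
  refine h.congr (Eventually.of_forall fun p => ?_)
  simp only [kk]
  ring

theorem one_int (d : ℕ) (S : ℝ) : Integrable (fun _ : E d => (1 : ℝ)) (muS d S) :=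
  integrable_const _

/-- General potentials. -/
def Pot {d : ℕ} (S : ℝ) (k : E d → ℝ) (F : ℝ → (Fin d → ℝ) → ℝ) (w : E d) : ℝ :=
  ∫ p, k p * U F (w + mm p) ∂(muS d S)

theorem integrand_int {d : ℕ} (S : ℝ) (k : E d → ℝ) (hk : Integrable k (muS d S))
    (F : ℝ → (Fin d → ℝ) → ℝ) (hF : BMP F) (w : E d) :
    Integrable (fun p => k p * U F (w + mm p)) (muS d S) := by
  obtain ⟨B, hB⟩ := hF.bdd
  refine hk.mul_bdd (c := B) ?_ ?_
  · exact (hF.meas.comp (measurable_const.add (meas_mm d))).aestronglyMeasurable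
  · exact Eventually.of_forall fun p => hB _ _

theorem Phi_eq {d : ℕ} (S : ℝ) (F : ℝ → (Fin d → ℝ) → ℝ) (hF : BMP F) (w : E d) :
    U (Phi S F) w = Pot S (fun _ => 1) F w := by
  have h := integrand_int S (fun _ => 1) (one_int d S) F hF w
  unfold Pot muS
  unfold muS at h
  rw [integral_prod _ h]
  unfold U Phi
  simp only [one_mul]
  rfl

theorem Vel_eq {d : ℕ} (S : ℝ) (F : ℝ → (Fin d → ℝ) → ℝ) (hF : BMP F) (i : Fin d) (w : E d) :
    U (Vel S F i) w = Pot S (kk i) F w := by
  have h := integrand_int S (kk i) (kk_int d S i) F hF w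
  unfold Pot muS
  unfold muS at h
  rw [integral_prod _ h]
  rfl

theorem Src.bmp {d : ℕ} {S : ℝ} {F : ℝ → (Fin d → ℝ) → ℝ} (h : Src S F) : BMP F :=
  ⟨h.meas, h.per, h.bdd⟩

end

end Pool.Agent.Helper86.ND
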