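import Pool.Agent.Helper86.ND.Base

set_option autoImplicit false

open MeasureTheory Set Filter Topology ProbabilityTheory
open scoped ENNReal NNReal

namespace Pool.Agent.Helper86.ND

open Pool.Agent.Helper28.ND

noncomputable section

/-- Smooth with compact support. -/
structure CS {d : ℕ} (f : ℝ → (Fin d → ℝ) → ℝ) : Prop where
  smooth : ContDiff ℝ (⊤ : ℕ∞) (U f)
  supp : HasCompactSupport (U f)

variable {d : ℕ} {f : ℝ → (Fin d → ℝ) → ℝ}

theorem CC.cs (h : CC f) : CS f := ⟨h.smooth, h.supp⟩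

theorem CS.diff (h : CS f) : Differentiable ℝ (U f) := h.smooth.differentiable (by norm_num)

theorem hasF (h : CS f) (t : ℝ) (x : Fin d → ℝ) :
    HasFDerivAt (f t) ((fderiv ℝ (U f) (t, x)).comp (ContinuousLinearMap.inr ℝ ℝ (Fin d → ℝ))) x := by
  have h1 : HasFDerivAt (U f) (fderiv ℝ (U f) (t, x)) (t, x) := (h.diff _).hasFDerivAt
  have h2 : HasFDerivAt (fun y : Fin d → ℝ => (t, y))
      (ContinuousLinearMap.inr ℝ ℝ (Fin d → ℝ)) x := hasFDerivAt_prodMk_right t x
  exact HasFDerivAt.comp x h1 h2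

theorem pd_eq (h : CS f) (i : Fin d) (t : ℝ) (x : Fin d → ℝ) :
    pd i (f t) x = fderiv ℝ (U f) (t, x) (0, Pi.single i 1) := by
  unfold pd
  rw [(hasF h t x).fderiv]
  simp

theorem dt_eq (h : CS f) (t : ℝ) (x : Fin d → ℝ) :
    dt f t x = fderiv ℝ (U f) (t, x) (1, 0) := by
  unfold dt
  have h1 : HasFDerivAt (U f) (fderiv ℝ (U f) (t, x)) (t, x) := (h.diff _).hasFDerivAt
  have h2 : HasFDerivAt (fun s : ℝ => (s, x))
      (ContinuousLinearMap.inl ℝ ℝ (Fin d → ℝ)) t := hasFDerivAt_prodMk_left t x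
  have h3 := (HasFDerivAt.comp t h1 h2).hasDerivAt
  have h4 : deriv (U f ∘ fun s : ℝ => (s, x)) t
      = ((fderiv ℝ (U f) (t, x)).comp (ContinuousLinearMap.inl ℝ ℝ (Fin d → ℝ))) 1 := h3.deriv
  have h5 : (fun s => f s x) = (U f ∘ fun s : ℝ => (s, x)) := rfl
  rw [h5, h4]
  simp

theorem CS.dir (h : CS f) (v : E d) : ContDiff ℝ (⊤ : ℕ∞) (fun w => fderiv ℝ (U f) w v) ∧
    HasCompactSupport (fun w => fderiv ℝ (U f) w v) := by
  refine ⟨?_, ?_⟩
  · exact (h.smooth.fderiv_right (m := (⊤ : ℕ∞)) (by simp)).clm_apply contDiff_const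
  · exact h.supp.fderiv_apply ℝ v

theorem CS.pd (h : CS f) (i : Fin d) : CS (fun t x => pd i (f t) x) := by
  have h1 : U (fun t x => Helper28.ND.pd i (f t) x)
      = fun w => fderiv ℝ (U f) w (0, Pi.single i 1) := by
    funext w
    exact pd_eq h i w.1 w.2
  constructor
  · rw [h1]; exact (h.dir _).1
  · rw [h1]; exact (h.dir _).2

theorem CS.dt (h : CS f) : CS (dt f) := by
  have h1 : U (Helper28.ND.dt f) = fun w => fderiv ℝ (U f) w (1, 0) := by
    funext w
    exact dt_eq h w.1 w.2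
  constructor
  · rw [h1]; exact (h.dir _).1
  · rw [h1]; exact (h.dir _).2

theorem CS.bdd (h : CS f) : ∃ B : ℝ, 0 ≤ B ∧ ∀ t x, |f t x| ≤ B := by
  obtain ⟨B, hB⟩ := h.supp.exists_bound_of_continuous h.smooth.continuous
  exact ⟨B, (norm_nonneg _).trans (hB (0, 0)), fun t x => hB (t, x)⟩

theorem CS.bddD (h : CS f) : ∃ B : ℝ, 0 ≤ B ∧ ∀ w, ‖fderiv ℝ (U f) w‖ ≤ B := by
  obtain ⟨B, hB⟩ := (h.supp.fderiv ℝ).exists_bound_of_continuous
    (h.smooth.continuous_fderiv (by norm_num))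
  exact ⟨B, (norm_nonneg _).trans (hB (0, 0)), hB⟩

theorem CS.integrable (h : CS f) : Integrable (U f) volume :=
  h.smooth.continuous.integrable_of_hasCompactSupport h.supp

theorem CS.meas (h : CS f) : Measurable (U f) := h.smooth.continuous.measurable

theorem CS.add {g : ℝ → (Fin d → ℝ) → ℝ} (h : CS f) (hg : CS g) :
    CS (fun t x => f t x + g t x) :=
  ⟨h.smooth.add hg.smooth, h.supp.add hg.supp⟩

theorem CS.neg (h : CS f) : CS (fun t x => - f t x) :=
  ⟨h.smooth.neg, h.supp.neg⟩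

theorem CS.sub {g : ℝ → (Fin d → ℝ) → ℝ} (h : CS f) (hg : CS g) :
    CS (fun t x => f t x - g t x) := by
  have := h.add hg.neg
  simpa [sub_eq_add_neg] using this

theorem CS.sum {ι : Type} (s : Finset ι) (F : ι → ℝ → (Fin d → ℝ) → ℝ)
    (h : ∀ i, CS (F i)) : CS (fun t x => ∑ i ∈ s, F i t x) := by
  classical
  induction s using Finset.induction_on with
  | empty =>
    simp only [Finset.sum_empty]
    exact ⟨contDiff_const, HasCompactSupport.zero⟩
  | insert a s ha ih =>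
    simp only [Finset.sum_insert ha]
    exact (h a).add ih

theorem CS.lap (h : CS f) : CS (fun t x => lap (f t) x) := by
  unfold Helper28.ND.lap
  exact CS.sum _ _ fun i => (h.pd i).pd i

/-- The function `z ↦ f(s, x - c z)`. -/
theorem slice_facts (h : CS f) (s : ℝ) (x : Fin d → ℝ) (c : ℝ) :
    ContDiff ℝ 1 (fun z : Fin d → ℝ => f s (x - c • z)) ∧
    (∃ B : ℝ, ∀ z, |f s (x - c • z)| ≤ B ∧ ‖fderiv ℝ (fun z : Fin d → ℝ => f s (x - c • z)) z‖ ≤ B) ∧
    ∀ i z, pd i (fun z : Fin d → ℝ => f s (x - c • z)) z = - c * pd i (f s) (x - c • z) := by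
  have hd : ∀ z, HasFDerivAt (fun z : Fin d → ℝ => f s (x - c • z))
      (((fderiv ℝ (U f) (s, x - c • z)).comp (ContinuousLinearMap.inr ℝ ℝ (Fin d → ℝ))).comp
        (- (c • ContinuousLinearMap.id ℝ (Fin d → ℝ)))) z := by
    intro z
    have h1 := hasF h s (x - c • z)
    have h2 : HasFDerivAt (fun z : Fin d → ℝ => x - c • z)
        (- (c • ContinuousLinearMap.id ℝ (Fin d → ℝ))) z :=
      ((hasFDerivAt_id z).const_smul c).const_sub x
    exact HasFDerivAt.comp z h1 h2
  refine ⟨?_, ?_, ?_⟩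
  · have : (fun z : Fin d → ℝ => f s (x - c • z)) = U f ∘ (fun z => (s, x - c • z)) := rfl
    rw [this]
    exact (h.smooth.of_le (by norm_num)).comp (by fun_prop)
  · obtain ⟨B, hB0, hB⟩ := h.bdd
    obtain ⟨B', hB0', hB'⟩ := h.bddD
    refine ⟨B + B' * |c|, fun z => ⟨?_, ?_⟩⟩
    · have := hB s (x - c • z)
      have h2 : 0 ≤ B' * |c| := by positivity
      linarith
    · rw [(hd z).fderiv]
      apply ContinuousLinearMap.opNorm_le_bound _ (by positivity)
      intro y
      have h3 : ((((fderiv ℝ (U f) (s, x - c • z)).comp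
          (ContinuousLinearMap.inr ℝ ℝ (Fin d → ℝ))).comp
        (- (c • ContinuousLinearMap.id ℝ (Fin d → ℝ)))) y)
          = fderiv ℝ (U f) (s, x - c • z) (0, -(c • y)) := rfl
      rw [h3]
      have h4 := (fderiv ℝ (U f) (s, x - c • z)).le_opNorm (0, -(c • y))
      have h5 : ‖((0 : ℝ), -(c • y))‖ = |c| * ‖y‖ := by
        rw [Prod.norm_def]
        simp [norm_smul]
        positivity
      rw [h5] at h4
      have h6 := hB' (s, x - c • z)
      calc _ ≤ ‖fderiv ℝ (U f) (s, x - c • z)‖ * (|c| * ‖y‖) := h4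
        _ ≤ B' * (|c| * ‖y‖) := by gcongr
        _ ≤ (B + B' * |c|) * ‖y‖ := by nlinarith [mul_nonneg hB0 (norm_nonneg y)]
  · intro i z
    rw [pd_eq h]
    unfold Helper28.ND.pd
    rw [(hd z).fderiv]
    have : ((((fderiv ℝ (U f) (s, x - c • z)).comp
          (ContinuousLinearMap.inr ℝ ℝ (Fin d → ℝ))).comp
        (- (c • ContinuousLinearMap.id ℝ (Fin d → ℝ)))) (Pi.single i 1))
        = fderiv ℝ (U f) (s, x - c • z) ((-c) • (0, Pi.single i 1)) := by
      have h7 : ((-c) • ((0 : ℝ), (Pi.single i 1 : Fin d → ℝ))) = (0, -(c • Pi.single i 1)) := by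
        ext <;> simp
      rw [h7]
      rfl
    rw [this, map_smul, smul_eq_mul]

theorem stein (hS : S_STEIN) (h : CS f) (s : ℝ) (x : Fin d → ℝ) (c : ℝ) (i : Fin d) :
    ∫ z, z i * f s (x - c • z) ∂(gam d) = - c * ∫ z, pd i (f s) (x - c • z) ∂(gam d) := by
  obtain ⟨h1, h2, h3⟩ := slice_facts h s x c
  rw [hS d _ h1 h2 i, ← integral_const_mul]
  congr 1
  funext z
  exact h3 i z

theorem slice_cont (h : CS f) (s : ℝ) (x : Fin d → ℝ) (c : ℝ) :
    Continuous (fun z : Fin d → ℝ => f s (x - c • z)) := (slice_facts h s x c).1.continuous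

theorem slice_int (h : CS f) (s : ℝ) (x : Fin d → ℝ) (c : ℝ) :
    Integrable (fun z : Fin d → ℝ => f s (x - c • z)) (gam d) := by
  obtain ⟨B, hB0, hB⟩ := h.bdd
  exact Integrable.mono' (integrable_const B) (slice_cont h s x c).aestronglyMeasurable
    (Eventually.of_forall fun z => hB _ _)

theorem slice_int' (h : CS f) (s : ℝ) (x : Fin d → ℝ) (c : ℝ) (i : Fin d) :
    Integrable (fun z : Fin d → ℝ => z i * f s (x - c • z)) (gam d) := by
  obtain ⟨B, hB0, hB⟩ := h.bdd
  exact (coord_int d i).mul_bdd (c := B) (slice_cont h s x c).aestronglyMeasurable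
    (Eventually.of_forall fun z => hB _ _)

/-- Continuity of the backward flow. -/
theorem flow_cont (h : CS f) (t : ℝ) (x : Fin d → ℝ) :
    Continuous (fun r : ℝ => ∫ z, f (t - r) (x - Real.sqrt (2 * r) • z) ∂(gam d)) := by
  obtain ⟨B, hB0, hB⟩ := h.bdd
  refine continuous_of_dominated (bound := fun _ => B) ?_ ?_ (integrable_const B) ?_
  · intro r
    exact (slice_cont h (t - r) x (Real.sqrt (2 * r))).aestronglyMeasurable
  · intro r
    exact Eventually.of_forall fun z => hB _ _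
  · refine Eventually.of_forall fun z => ?_
    have : (fun r : ℝ => f (t - r) (x - Real.sqrt (2 * r) • z))
        = U f ∘ (fun r : ℝ => (t - r, x - Real.sqrt (2 * r) • z)) := rfl
    rw [this]
    exact h.smooth.continuous.comp (by fun_prop)

end

end Pool.Agent.Helper86.ND
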